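import Mathlib
import Pool.Agent.Q209.AddForce

/-!
# The Ostaszewski square at a regular cardinal does not imply the continuum hypothesis there

Let `lam` be an uncountable regular cardinal with `lam^{<lam} = lam`, `2^lam = lam⁺` and `OS_lam`
(all this holds in `L`). Let `P` be the forcing notion which adds `lam⁺⁺` subsets of `lam` with
conditions of size less than `lam`. Then `lam`, `lam⁺` and `lam⁺⁺` remain regular cardinals in the
extension, `OS_lam` holds there and is witnessed by a sequence of the ground model, and
`2^lam ≥ lam⁺⁺`. So `OS_lam` does not imply `lam^lam = lam⁺`.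

Idea: using `2^lam = lam⁺`, let the points of `lam⁺` code the bounded subsets of `lam⁺`. Replace the
element `y = C_α (i + 1)` of a square sequence `C` by the element of the interval
`(C_α (i), C_α (i + 1))` which the set coded by `y` assigns to the history (the set of the new
`C_α (j + 1)`, `j < i`) and to `C_α (i)`. The new sequence is still a square sequence, and it
guesses functions `F` of the history: all new `C_α (i + 1)` are the values of `F` on the history.
Given names for unbounded sets `A_i`, a limit ordinal `θ < lam` and a condition, a history gives a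
decreasing sequence of conditions which put its members into the sets `A_i`; let `F` be the next
possible member. As `P` is `lam`-closed, the guess of `F` by `C_α` gives a condition which forces that
all `C_α (i + 1)` are in `A_i`. Clubs of the extension contain clubs of the ground model.

Sentences of the forcing language are represented by the sets of conditions which force them, see
`Pool.Agent.Helper669.Forcing`.
-/

set_option autoImplicit false

namespace Pool.Agent.Results.MP_9a8e62_lc.OstaszewskiWithoutCH

open Cardinal Set Order Ordinal Q209.OS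
open Pool.Agent.Helper669.Forcing Pool.Agent.Helper669.K

/-- `C` is a `□_lam` sequence. -/
def IsSquare (lam : Cardinal.{0}) (C : Kp lam → Set (Kp lam)) : Prop :=
  ∀ α, IsSuccLimit α → IsClubIn (C α) α ∧ typeLT (C α) ≤ lam.ord ∧
    ∀ β ∈ acc (C α), C β = C α ∩ Iio β

/-- The Ostaszewski square `OS_lam`. -/
def OS (lam : Cardinal.{0}) : Prop := ∃ C : Kp lam → Set (Kp lam), IsSquare lam C ∧ Guesses lam C

/-- The Ostaszewski square in the extension, witnessed by a sequence of the ground model. -/
def FOS (P : Type) [Preorder P] (lam : Cardinal.{0}) : Set P :=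
  fex fun C : Kp lam → Set (Kp lam) => fand (fground (IsSquare lam C)) (FGuesses P lam C)

/-- In the extension there are at least `κ` different subsets of `lam`. -/
def FManySubsets (P : Type) [Preorder P] (lam κ : Cardinal.{0}) : Set P :=
  fex fun G : κ.ord.ToType → lam.ord.ToType → Set P =>
    fall fun x => fall fun y => fall fun _ : x ≠ y => fnot (SameSet (G x) (G y))

theorem isSquare_new {lam : Cardinal.{0}} {C : Kp lam → Set (Kp lam)} (hC : IsSquare lam C)
    (ψ : Kp lam → Set (Kp lam)) (cd : Set (Kp lam) → Kp lam → Kp lam → Kp lam) :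
    IsSquare lam (Cnew ψ cd C) := by
  intro α hα
  obtain ⟨h1, h2, h3⟩ := hC α hα
  obtain ⟨h4, h5, h6⟩ := club_Cn ψ cd h1
  refine ⟨h4, (type_Cn ψ cd (C α)).trans_le h2, fun β hβ => ?_⟩
  change Cn ψ cd (C β) = Cn ψ cd (C α) ∩ Iio β
  rw [h6 β hβ, h3 β (h5 hβ)]

theorem result (lam : Cardinal.{0}) (hreg : lam.IsRegular) (_hω : ℵ₀ < lam)
    (hp : lam ^< lam = lam) (h2 : 2 ^ lam = succ lam) (hOS : OS lam) :
    ∃ (P : Type) (_ : Preorder P), Nonempty P ∧ ∀ p : P,
      (p ∈ StaysRegular P lam ∧ p ∈ StaysRegular P (succ lam) ∧
        p ∈ StaysRegular P (succ (succ lam))) ∧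
      p ∈ FOS P lam ∧ p ∈ FManySubsets P lam (succ (succ lam)) := by
  obtain ⟨C, hC1, hC2⟩ := hOS
  obtain ⟨ψ, cd, hψ, hcd⟩ := exists_codes hreg.aleph0_le h2
  have hcc := chainC_Ad (D := (succ (succ lam)).ord.ToType × lam.ord.ToType) hreg hp
  have hdir := dirClosed_Ad (D := (succ (succ lam)).ord.ToType × lam.ord.ToType) hreg
  refine ⟨Ad lam ((succ (succ lam)).ord.ToType × lam.ord.ToType), inferInstance,
    nonempty_Ad hreg, fun p => ⟨⟨?_, ?_, ?_⟩, ?_, ?_⟩⟩
  · exact staysRegular_closed hreg hdir p
  · exact staysRegular_of_cc hreg.aleph0_le (isRegular_succ hreg.aleph0_le) (lt_succ lam) hcc p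
  · exact staysRegular_of_cc hreg.aleph0_le
      (isRegular_succ (hreg.aleph0_le.trans (le_succ lam)))
      ((lt_succ lam).trans (lt_succ _)) hcc p
  · exact mem_fex.2 fun q _ => ⟨q, le_rfl, Cnew ψ cd C, isSquare_new hC1 ψ cd,
      forced_guess hreg hp hψ hcd hC2 hdir hcc q⟩
  · exact mem_fex.2 fun q _ => ⟨q, le_rfl, fun x a => {q | ((x, a), true) ∈ q.g},
      fun x y hxy => generic_ne hreg x y hxy q⟩

end Pool.Agent.Results.MP_9a8e62_lc.OstaszewskiWithoutCH
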